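import Pool.Agent.H26.MatFamD

namespace Pool.Agent.Results.MP_221c76_co.InfClasses

open Pool.Agent.H26.MatFam

theorem result : ∃ P : MG → Prop, Matroidal P ∧ (∀ G, P G → NoIsolated G) ∧
    ∀ fin : Bool, (∀ G H, P G → Homeo fin G H → P H) ∧
      ∃ f : ℕ → MG, (∀ n, P (f n)) ∧ ∀ m n, Homeo fin (f m) (f n) → m = n :=
  main

end Pool.Agent.Results.MP_221c76_co.InfClasses
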